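import Pool.Agent.Y402.PL.Stm

/-!
# Project PL (helper402), job CH (helper409): the greedy Petridis chain in a box
-/

set_option autoImplicit false

namespace Pool.Agent.Y409.PL

open Pointwise Finset Pool.Agent.Y402.PL

lemma box_down {n m : ℕ} (s c : ℕ × ℕ) (h : s + c ∈ box n m) : s ∈ box n m := by
  simp only [Pool.Agent.Y402.PL.box, mem_product, mem_range, Prod.fst_add, Prod.snd_add] at h ⊢
  omega

lemma dec (R P Q : Finset (ℕ × ℕ)) :
    ((P ∪ Q) ∩ R).card = (P ∩ R).card + (Q ∩ (R \ P)).card := by
  rw [← card_union_of_disjoint]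
  · congr 1
    ext x
    simp only [mem_union, mem_inter, mem_sdiff]
    tauto
  · rw [disjoint_left]
    intro x
    simp only [mem_inter, mem_sdiff]
    tauto

lemma claim (R W X B : Finset (ℕ × ℕ)) (hR : ∀ s c, s + c ∈ R → s ∈ R) (K : ℝ) (hK0 : 0 ≤ K)
    (hK : ∀ Z ⊆ X, K * (Z.card : ℝ) ≤ (((Z + B) ∩ (R \ (W + B))).card : ℝ))
    (hX : K * (X.card : ℝ) = (((X + B) ∩ (R \ (W + B))).card : ℝ)) (i : ℕ) :
    ∀ C : Finset (ℕ × ℕ), C ⊆ i • B →
      (((X + B + C) ∩ (R \ (W + (i + 1) • B))).card : ℝ) ≤
        K * (((X + C) ∩ (R \ (W + i • B))).card : ℝ) := by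
  classical
  intro C
  induction C using Finset.induction_on with
  | empty => intro _; simp
  | insert c C' hc ih =>
    intro hsub
    have hc' : c ∈ i • B := hsub (mem_insert_self _ _)
    have ih' := ih (fun x hx => hsub (mem_insert_of_mem hx))
    set R1 := R \ (W + B) with hR1
    set Ri := R \ (W + i • B) with hRi
    set Rj := R \ (W + (i + 1) • B) with hRj
    set Z := X.filter (fun x => ∀ b ∈ B, x + b + c ∈ Rj → x + b + c ∈ X + B + C') with hZ
    have hZX : Z ⊆ X := filter_subset _ _
    have a : ((X + B + insert c C') ∩ Rj).card + ((Z + B) ∩ R1).card ≤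
        ((X + B + C') ∩ Rj).card + ((X + B) ∩ R1).card := by
      have s1 : (X + B + insert c C') ∩ Rj ⊆
          ((X + B + C') ∩ Rj) ∪ ((((X + B) ∩ R1) \ ((Z + B) ∩ R1)).image (· + c)) := by
        intro p hp
        rw [mem_inter] at hp
        obtain ⟨hp1, hp2⟩ := hp
        by_cases hp3 : p ∈ X + B + C'
        · exact mem_union_left _ (mem_inter.2 ⟨hp3, hp2⟩)
        · apply mem_union_right
          rw [mem_add] at hp1
          obtain ⟨s, hs, c1, hc1, rfl⟩ := hp1
          rw [mem_insert] at hc1
          rcases hc1 with hc1 | hc1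
          · subst hc1
            refine mem_image.2 ⟨s, ?_, rfl⟩
            rw [mem_sdiff]
            have hsR1 : s ∈ R1 := by
              rw [hRj, mem_sdiff] at hp2
              rw [hR1, mem_sdiff]
              refine ⟨hR _ _ hp2.1, fun h => hp2.2 ?_⟩
              rw [succ_nsmul', ← add_assoc]
              exact add_mem_add h hc'
            refine ⟨mem_inter.2 ⟨hs, hsR1⟩, fun h => ?_⟩
            rw [mem_inter, mem_add] at h
            obtain ⟨⟨z, hz, b, hb, rfl⟩, _⟩ := h
            rw [hZ, mem_filter] at hz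
            exact hp3 (hz.2 b hb hp2)
          · exact absurd (add_mem_add hs hc1) hp3
      have s2 := card_le_card s1
      have s3 := card_union_le ((X + B + C') ∩ Rj)
        ((((X + B) ∩ R1) \ ((Z + B) ∩ R1)).image (· + c))
      have s4 : ((((X + B) ∩ R1) \ ((Z + B) ∩ R1)).image (· + c)).card ≤
        (((X + B) ∩ R1) \ ((Z + B) ∩ R1)).card := card_image_le
      have s5 := card_sdiff_add_card_eq_card (s := (Z + B) ∩ R1) (t := (X + B) ∩ R1)
        (inter_subset_inter_right (add_subset_add_right hZX))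
      omega
    have b : ((X + C') ∩ Ri).card + X.card ≤ ((X + insert c C') ∩ Ri).card + Z.card := by
      have hout : ∀ x ∈ X \ Z, x + c ∉ X + C' ∧ x + c ∈ Ri := by
        intro x hx
        rw [mem_sdiff] at hx
        obtain ⟨hx1, hx2⟩ := hx
        constructor
        · intro h
          apply hx2
          rw [hZ, mem_filter]
          refine ⟨hx1, fun b hb _ => ?_⟩
          rw [mem_add] at h
          obtain ⟨y, hy, c1, hc1, he⟩ := h
          have e : x + b + c = y + b + c1 := by
            rw [add_right_comm, ← he, add_right_comm]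
          rw [e]
          exact add_mem_add (add_mem_add hy hb) hc1
        · by_contra h
          apply hx2
          rw [hZ, mem_filter]
          refine ⟨hx1, fun b hb hm => ?_⟩
          exfalso
          apply h
          rw [hRj, mem_sdiff] at hm
          rw [hRi, mem_sdiff]
          have e : x + b + c = x + c + b := add_right_comm _ _ _
          rw [e] at hm
          refine ⟨hR _ _ hm.1, fun h1 => hm.2 ?_⟩
          rw [succ_nsmul, ← add_assoc]
          exact add_mem_add h1 hb
      have s1 : ((X + C') ∩ Ri) ∪ ((X \ Z).image (· + c)) ⊆ (X + insert c C') ∩ Ri := by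
        intro p hp
        rw [mem_union] at hp
        rcases hp with hp | hp
        · rw [mem_inter] at hp ⊢
          exact ⟨add_subset_add_left (subset_insert _ _) hp.1, hp.2⟩
        · rw [mem_image] at hp
          obtain ⟨x, hx, rfl⟩ := hp
          rw [mem_inter]
          exact ⟨add_mem_add (mem_sdiff.1 hx).1 (mem_insert_self _ _), (hout x hx).2⟩
      have s2 : Disjoint ((X + C') ∩ Ri) ((X \ Z).image (· + c)) := by
        rw [disjoint_left]
        intro p hp hp'
        rw [mem_image] at hp'
        obtain ⟨x, hx, rfl⟩ := hp'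
        exact (hout x hx).1 (mem_inter.1 hp).1
      have s3 := card_le_card s1
      rw [card_union_of_disjoint s2,
        card_image_of_injective _ (fun x y (h : x + c = y + c) => add_right_cancel h)] at s3
      have s4 := card_sdiff_add_card_eq_card hZX
      omega
    have h1 := hK Z hZX
    have a' : (((X + B + insert c C') ∩ Rj).card : ℝ) + (((Z + B) ∩ R1).card : ℝ) ≤
        (((X + B + C') ∩ Rj).card : ℝ) + (((X + B) ∩ R1).card : ℝ) := by exact_mod_cast a
    have b' : (((X + C') ∩ Ri).card : ℝ) + (X.card : ℝ) ≤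
        (((X + insert c C') ∩ Ri).card : ℝ) + (Z.card : ℝ) := by exact_mod_cast b
    have b'' := mul_le_mul_of_nonneg_left b' hK0
    rw [mul_add, mul_add] at b''
    linarith

lemma claim2 (R W X B : Finset (ℕ × ℕ)) (hR : ∀ s c, s + c ∈ R → s ∈ R) (K : ℝ) (hK0 : 0 ≤ K)
    (hK : ∀ Z ⊆ X, K * (Z.card : ℝ) ≤ (((Z + B) ∩ (R \ (W + B))).card : ℝ))
    (hX : K * (X.card : ℝ) = (((X + B) ∩ (R \ (W + B))).card : ℝ)) (i : ℕ) :
    (((X + i • B) ∩ (R \ (W + i • B))).card : ℝ) ≤ K ^ i * (X.card : ℝ) := by
  induction i with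
  | zero =>
    rw [zero_nsmul, add_zero, pow_zero, one_mul]
    exact_mod_cast card_le_card inter_subset_left
  | succ i ih =>
    have h := claim R W X B hR K hK0 hK hX i (i • B) (Subset.refl _)
    have e : X + (i + 1) • B = X + B + i • B := by rw [succ_nsmul', ← add_assoc]
    rw [e, pow_succ', mul_assoc]
    exact h.trans (mul_le_mul_of_nonneg_left ih hK0)

lemma chain (n m k : ℕ) (A B : Finset (ℕ × ℕ)) : ∀ N : ℕ, ∀ W : Finset (ℕ × ℕ), W ⊆ A → (A \ W).card ≤ N →
      ∀ κ : ℝ, 0 ≤ κ →
      (∀ Z ⊆ A \ W, κ * (Z.card : ℝ) ≤ (((Z + B) ∩ (box n m \ (W + B))).card : ℝ)) →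
    ∃ (r : ℕ) (V : ℕ → Finset (ℕ × ℕ)) (K : ℕ → ℝ),
      V 0 = W ∧ V r = A ∧ (∀ j, V j ⊆ V (j + 1)) ∧ Monotone K ∧ (∀ j, 0 ≤ K j) ∧ κ ≤ K 0 ∧
      ∀ j < r,
        (((V (j + 1) + B) ∩ box n m).card : ℝ)
            = (((V j + B) ∩ box n m).card : ℝ)
              + K j * (((V (j + 1)).card : ℝ) - ((V j).card : ℝ)) ∧
        (((V (j + 1) + k • B) ∩ box n m).card : ℝ)
            ≤ (((V j + k • B) ∩ box n m).card : ℝ)
              + K j ^ k * (((V (j + 1)).card : ℝ) - ((V j).card : ℝ)) := by
  classical
  intro N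
  induction N with
  | zero =>
    intro W hW hc κ hκ _
    have : A \ W = ∅ := card_eq_zero.1 (by omega)
    have hWA : W = A := Subset.antisymm hW (sdiff_eq_empty_iff_subset.1 this)
    exact ⟨0, fun _ => A, fun _ => κ, hWA.symm, rfl, fun _ => Subset.refl _,
      monotone_const, fun _ => hκ, le_refl _, fun j hj => absurd hj (Nat.not_lt_zero _)⟩
  | succ N ih =>
    intro W hW hc κ hκ hlow
    rcases Finset.eq_empty_or_nonempty (A \ W) with he | hne
    · have hWA : W = A := Subset.antisymm hW (sdiff_eq_empty_iff_subset.1 he)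
      exact ⟨0, fun _ => A, fun _ => κ, hWA.symm, rfl, fun _ => Subset.refl _,
        monotone_const, fun _ => hκ, le_refl _, fun j hj => absurd hj (Nat.not_lt_zero _)⟩
    -- the minimising set
    set R1 := box n m \ (W + B) with hR1
    obtain ⟨X, hXm, hXmin⟩ := Finset.exists_min_image ((A \ W).powerset.filter (·.Nonempty))
      (fun X => (((X + B) ∩ R1).card : ℝ) / (X.card : ℝ))
      ⟨A \ W, mem_filter.2 ⟨mem_powerset.2 (Subset.refl _), hne⟩⟩
    rw [mem_filter, mem_powerset] at hXm
    obtain ⟨hXs, hXne⟩ := hXm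
    set K0 : ℝ := (((X + B) ∩ R1).card : ℝ) / (X.card : ℝ) with hK0
    have hXpos : (0 : ℝ) < (X.card : ℝ) := by exact_mod_cast hXne.card_pos
    have hK0nn : 0 ≤ K0 := div_nonneg (Nat.cast_nonneg _) (Nat.cast_nonneg _)
    have hXeq : K0 * (X.card : ℝ) = (((X + B) ∩ R1).card : ℝ) := by
      rw [hK0, div_mul_cancel₀ _ hXpos.ne']
    have hmin : ∀ Z ⊆ A \ W, K0 * (Z.card : ℝ) ≤ (((Z + B) ∩ R1).card : ℝ) := by
      intro Z hZ
      rcases Finset.eq_empty_or_nonempty Z with hZe | hZne
      · subst hZe
        simp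
      · have h1 := hXmin Z (mem_filter.2 ⟨mem_powerset.2 hZ, hZne⟩)
        have hZpos : (0 : ℝ) < (Z.card : ℝ) := by exact_mod_cast hZne.card_pos
        have h2 := (le_div_iff₀ hZpos).1 h1
        exact h2
    have hκK : κ ≤ K0 := by
      have h1 := hlow X hXs
      rw [← hXeq] at h1
      exact le_of_mul_le_mul_right h1 hXpos
    -- the next set
    set W' := W ∪ X with hW'
    have hdisj : Disjoint W X := by
      rw [disjoint_left]
      intro x hx hx'
      exact (mem_sdiff.1 (hXs hx')).2 hx
    have hW'A : W' ⊆ A := union_subset hW (hXs.trans sdiff_subset)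
    have hcard' : (A \ W').card ≤ N := by
      have h1 : A \ W' ⊆ (A \ W) \ X := by
        intro x hx
        simp only [hW', mem_sdiff, mem_union, not_or] at hx ⊢
        exact ⟨⟨hx.1, hx.2.1⟩, hx.2.2⟩
      have h2 := card_le_card h1
      have h3 := card_sdiff_add_card_eq_card hXs
      have h4 := hXne.card_pos
      omega
    have hlow' : ∀ Z ⊆ A \ W', K0 * (Z.card : ℝ) ≤
        (((Z + B) ∩ (box n m \ (W' + B))).card : ℝ) := by
      intro Z hZ
      have hZd : Disjoint X Z := by
        rw [disjoint_left]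
        intro x hx hx'
        exact (mem_sdiff.1 (hZ hx')).2 (mem_union_right _ hx)
      have hXZ : X ∪ Z ⊆ A \ W := by
        refine union_subset hXs (fun x hx => ?_)
        have := mem_sdiff.1 (hZ hx)
        exact mem_sdiff.2 ⟨this.1, fun h => this.2 (mem_union_left _ h)⟩
      have h1 := hmin _ hXZ
      have h2 : ((X ∪ Z + B) ∩ R1) ⊆ ((X + B) ∩ R1) ∪ ((Z + B) ∩ (box n m \ (W' + B))) := by
        intro p hp
        rw [mem_inter, union_add, mem_union] at hp
        rw [mem_union]
        by_cases hpX : p ∈ X + B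
        · exact Or.inl (mem_inter.2 ⟨hpX, hp.2⟩)
        · right
          have hpZ : p ∈ Z + B := hp.1.resolve_left hpX
          have hp2 := mem_sdiff.1 hp.2
          refine mem_inter.2 ⟨hpZ, mem_sdiff.2 ⟨hp2.1, ?_⟩⟩
          rw [hW', union_add, mem_union]
          rintro (h | h)
          · exact hp2.2 h
          · exact hpX h
      have h3 := (card_le_card h2).trans (card_union_le _ _)
      have h3' : (((X ∪ Z + B) ∩ R1).card : ℝ) ≤ (((X + B) ∩ R1).card : ℝ) +
          (((Z + B) ∩ (box n m \ (W' + B))).card : ℝ) := by exact_mod_cast h3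
      rw [card_union_of_disjoint hZd] at h1
      push_cast at h1
      rw [mul_add] at h1
      linarith
    obtain ⟨r, V, K, hV0, hVr, hVm, hKm, hKn, hK0', hst⟩ := ih W' hW'A hcard' K0 hK0nn hlow'
    refine ⟨r + 1, fun j => Nat.casesOn j W V, fun j => Nat.casesOn j K0 K, rfl, hVr, ?_, ?_, ?_,
      hκK, ?_⟩
    · intro j
      cases j with
      | zero =>
        change W ⊆ V 0
        rw [hV0]
        exact subset_union_left
      | succ j => exact hVm j
    · apply monotone_nat_of_le_succ
      intro j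
      cases j with
      | zero => exact hK0'
      | succ j => exact hKm (Nat.le_succ j)
    · intro j
      cases j with
      | zero => exact hK0nn
      | succ j => exact hKn j
    · intro j hj
      cases j with
      | succ j => exact hst j (by omega)
      | zero =>
        change (((V 0 + B) ∩ box n m).card : ℝ)
            = (((W + B) ∩ box n m).card : ℝ)
              + K0 * (((V 0).card : ℝ) - (W.card : ℝ)) ∧
          (((V 0 + k • B) ∩ box n m).card : ℝ)
            ≤ (((W + k • B) ∩ box n m).card : ℝ)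
              + K0 ^ k * (((V 0).card : ℝ) - (W.card : ℝ))
        have hcW : (W'.card : ℝ) - (W.card : ℝ) = (X.card : ℝ) := by
          rw [hW', card_union_of_disjoint hdisj]
          push_cast
          ring
        rw [hV0, hcW, hW', union_add, union_add, dec, dec]
        push_cast
        constructor
        · rw [hXeq]
        · have := claim2 (box n m) W X B box_down K0 hK0nn
            (fun Z hZ => hmin Z (hZ.trans hXs)) hXeq k
          linarith

theorem mainCH : S_CH := by
  intro n m k A B _ _ _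
  obtain ⟨r, V, K, h1, h2, h3, h4, h5, -, h6⟩ := chain n m k A B (A \ ∅).card ∅
    (empty_subset _) (le_refl _) 0 (le_refl _) (fun Z _ => by
      rw [zero_mul]; exact Nat.cast_nonneg _)
  exact ⟨r, V, K, h1, h2, h3, h4, h5, h6⟩

end Pool.Agent.Y409.PL
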