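import Pool.Agent.Y402.PL.Stm

/-!
# Project PL (helper402), job STC (helper409): the staircase bound
-/

set_option autoImplicit false

namespace Pool.Agent.Y409.PL

open Pointwise Finset Pool.Agent.Y402.PL

lemma mem_bx {n m : ℕ} {p : ℕ × ℕ} : p ∈ Pool.Agent.Y402.PL.box n m ↔ p.1 ≤ n ∧ p.2 ≤ m := by
  simp only [Pool.Agent.Y402.PL.box, mem_product, mem_range]
  omega

theorem mainSTC : S_STC := by
  classical
  intro N M C W β hβ hC n hn m
  induction m using Nat.strong_induction_on with
  | _ m ih =>
    intro hm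
    set U := (Pool.Agent.Y402.PL.box n m).filter (fun p => ∃ w ∈ W, w.1 ≤ p.1 ∧ w.2 ≤ p.2) with hU
    have hmemU : ∀ p, p ∈ U ↔ (p.1 ≤ n ∧ p.2 ≤ m) ∧ ∃ w ∈ W, w.1 ≤ p.1 ∧ w.2 ≤ p.2 := by
      intro p
      rw [hU, mem_filter, mem_bx]
    rcases Finset.eq_empty_or_nonempty (W ∩ Pool.Agent.Y402.PL.box n m) with he | hne
    · have hUe : U = ∅ := by
        rw [eq_empty_iff_forall_notMem]
        intro p hp
        obtain ⟨⟨h1, h2⟩, w, hw, h3, h4⟩ := (hmemU p).1 hp
        have : w ∈ W ∩ Pool.Agent.Y402.PL.box n m := by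
          rw [mem_inter, mem_bx]
          exact ⟨hw, by omega, by omega⟩
        rw [he] at this
        exact notMem_empty _ this
      rw [hUe]
      simp
    · obtain ⟨z, hz, hzmin⟩ := exists_min_image (W ∩ Pool.Agent.Y402.PL.box n m)
        (fun w => w.1) hne
      rw [mem_inter, mem_bx] at hz
      obtain ⟨hzW, hz1, hz2⟩ := hz
      set S := (W + C) ∩ Pool.Agent.Y402.PL.box n m with hS
      have hUc := card_filter_add_card_filter_not (s := U) (fun p : ℕ × ℕ => z.2 ≤ p.2)
      have hSc := card_filter_add_card_filter_not (s := S) (fun p : ℕ × ℕ => z.2 ≤ p.2)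
      -- the upper part
      have hT : (U.filter (fun p => z.2 ≤ p.2)).card ≤ (n - z.1 + 1) * (m - z.2 + 1) := by
        have h1 : U.filter (fun p => z.2 ≤ p.2) ⊆ Icc z.1 n ×ˢ Icc z.2 m := by
          intro p hp
          rw [mem_filter, hmemU] at hp
          obtain ⟨⟨⟨h1, h2⟩, w, hw, h3, h4⟩, h5⟩ := hp
          have h6 : w ∈ W ∩ Pool.Agent.Y402.PL.box n m := by
            rw [mem_inter, mem_bx]
            exact ⟨hw, by omega, by omega⟩
          have h7 := hzmin w h6
          rw [mem_product, mem_Icc, mem_Icc]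
          exact ⟨⟨le_trans h7 h3, h1⟩, h5, h2⟩
        have h2 := card_le_card h1
        rw [card_product, Nat.card_Icc, Nat.card_Icc] at h2
        rw [show n - z.1 + 1 = n + 1 - z.1 by omega, show m - z.2 + 1 = m + 1 - z.2 by omega]
        exact h2
      have hST : (C ∩ Pool.Agent.Y402.PL.box (n - z.1) (m - z.2)).card ≤
          (S.filter (fun p => z.2 ≤ p.2)).card := by
        rw [← card_image_of_injective (C ∩ Pool.Agent.Y402.PL.box (n - z.1) (m - z.2))
          (fun x y (h : z + x = z + y) => add_left_cancel h : Function.Injective (z + ·))]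
        apply card_le_card
        intro p hp
        rw [mem_image] at hp
        obtain ⟨c, hc, rfl⟩ := hp
        rw [mem_inter, mem_bx] at hc
        rw [mem_filter, hS, mem_inter, mem_bx]
        simp only [Prod.fst_add, Prod.snd_add]
        exact ⟨⟨add_mem_add hzW hc.1, by omega, by omega⟩, by omega⟩
      have hup := hC (n - z.1) (by omega) (m - z.2) (by omega)
      have hT' : ((U.filter (fun p => z.2 ≤ p.2)).card : ℝ) ≤
          (((n - z.1 : ℕ) : ℝ) + 1) * (((m - z.2 : ℕ) : ℝ) + 1) := by exact_mod_cast hT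
      have hST' : ((C ∩ Pool.Agent.Y402.PL.box (n - z.1) (m - z.2)).card : ℝ) ≤
          ((S.filter (fun p => z.2 ≤ p.2)).card : ℝ) := by exact_mod_cast hST
      have hA := mul_le_mul_of_nonneg_left hT' hβ
      -- the lower part
      have hlow : β * ((U.filter (fun p => ¬ z.2 ≤ p.2)).card : ℝ) ≤
          ((S.filter (fun p => ¬ z.2 ≤ p.2)).card : ℝ) := by
        rcases Nat.eq_zero_or_pos z.2 with h0 | h0
        · have : U.filter (fun p => ¬ z.2 ≤ p.2) = ∅ := by
            rw [filter_eq_empty_iff]
            intro p _ h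
            apply h
            omega
          rw [this]
          simp
        · have hi := ih (z.2 - 1) (by omega) (by omega)
          have h1 : U.filter (fun p => ¬ z.2 ≤ p.2) ⊆
              (Pool.Agent.Y402.PL.box n (z.2 - 1)).filter
                (fun p => ∃ w ∈ W, w.1 ≤ p.1 ∧ w.2 ≤ p.2) := by
            intro p hp
            rw [mem_filter, hmemU] at hp
            rw [mem_filter, mem_bx]
            exact ⟨⟨hp.1.1.1, by omega⟩, hp.1.2⟩
          have h2 : (W + C) ∩ Pool.Agent.Y402.PL.box n (z.2 - 1) ⊆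
              S.filter (fun p => ¬ z.2 ≤ p.2) := by
            intro p hp
            rw [mem_inter, mem_bx] at hp
            rw [mem_filter, hS, mem_inter, mem_bx]
            exact ⟨⟨hp.1, hp.2.1, by omega⟩, by omega⟩
          have h1' : ((U.filter (fun p => ¬ z.2 ≤ p.2)).card : ℝ) ≤
              (((Pool.Agent.Y402.PL.box n (z.2 - 1)).filter
                (fun p => ∃ w ∈ W, w.1 ≤ p.1 ∧ w.2 ≤ p.2)).card : ℝ) := by
            exact_mod_cast card_le_card h1
          have h2' : (((W + C) ∩ Pool.Agent.Y402.PL.box n (z.2 - 1)).card : ℝ) ≤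
              ((S.filter (fun p => ¬ z.2 ≤ p.2)).card : ℝ) := by
            exact_mod_cast card_le_card h2
          have h3 := mul_le_mul_of_nonneg_left h1' hβ
          linarith
      have hUc' : ((U.filter (fun p => z.2 ≤ p.2)).card : ℝ) +
          ((U.filter (fun p => ¬ z.2 ≤ p.2)).card : ℝ) = (U.card : ℝ) := by exact_mod_cast hUc
      have hSc' : ((S.filter (fun p => z.2 ≤ p.2)).card : ℝ) +
          ((S.filter (fun p => ¬ z.2 ≤ p.2)).card : ℝ) = (S.card : ℝ) := by exact_mod_cast hSc
      rw [← hUc', ← hSc', mul_add]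
      linarith

end Pool.Agent.Y409.PL
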